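import Pool.Agent.Helper63.PL.Walks

/-!
# PL-7B: facts about the pins with exactly two hubs nearby
-/

set_option autoImplicit false

open Set
open Pool.Agent.Helper83.OP Pool.Agent.Helper93.HH Pool.Agent.Helper23.PL

namespace Pool.Agent.Helper17.PL

section

variable {V P Q : Type} [Finite V] [Finite P] [Finite Q] {D : HD V P Q} {k k1 k2 : ℕ}

open Pool.Agent.Helper63.PL

omit [Finite V] [Finite P] [Finite Q] in
private theorem e1_le {p q : P} {t : ℕ} (h : D.hub q ≠ D.hub p) (h' : Pn D t (D.x p) q) :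
    e1 D p ≤ t := Nat.sInf_le (Or.inl ⟨q, h, h'⟩)

omit [Finite V] [Finite P] [Finite Q] in
private theorem e1_spec {p : P} (h : e1 D p < cap D) :
    D.hub (pt1 D p) ≠ D.hub p ∧ Pn D (e1 D p) (D.x p) (pt1 D p) := by
  have h1 : e1 D p ∈ ({t | ∃ q, D.hub q ≠ D.hub p ∧ Pn D t (D.x p) q} ∪ {cap D} : Set ℕ) :=
    Nat.sInf_mem ⟨cap D, Or.inr rfl⟩
  have h2 : ∃ q, D.hub q ≠ D.hub p ∧ Pn D (e1 D p) (D.x p) q := by
    rcases h1 with h1 | h1
    · exact h1
    · exact absurd h1 h.ne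
  have h3 : pt1 D p = h2.choose := by
    unfold pt1
    rw [dif_pos h2]
  rw [h3]
  exact h2.choose_spec

omit [Finite V] [Finite P] [Finite Q] in
private theorem e2_le {p q : P} {t : ℕ} (h : D.hub q ≠ D.hub p)
    (h1 : D.hub q ≠ D.hub (pt1 D p)) (h' : Pn D t (D.x p) q) : e2 D p ≤ t :=
  Nat.sInf_le (Or.inl ⟨q, h, h1, h'⟩)

omit [Finite V] [Finite P] [Finite Q] in
private theorem e2_cap (p : P) : e2 D p ≤ cap D := Nat.sInf_le (Or.inr rfl)

omit [Finite V] [Finite P] [Finite Q] in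
private theorem e2_spec {p : P} (h : e2 D p < cap D) : ∃ q, D.hub q ≠ D.hub p ∧
    D.hub q ≠ D.hub (pt1 D p) ∧ Pn D (e2 D p) (D.x p) q := by
  have h1 : e2 D p ∈ ({t | ∃ q, D.hub q ≠ D.hub p ∧ D.hub q ≠ D.hub (pt1 D p) ∧
      Pn D t (D.x p) q} ∪ {cap D} : Set ℕ) := Nat.sInf_mem ⟨cap D, Or.inr rfl⟩
  rcases h1 with h1 | h1
  · exact h1
  · exact absurd h1 h.ne

omit [Finite V] [Finite P] [Finite Q] in
private theorem Rb_lt {y : V} {t : ℕ} (h : t < Rb D k2 y) : bv D (D.ball t y) ≤ k2 := by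
  by_contra hcon
  have h1 : Rb D k2 y ≤ t := Nat.sInf_le (Or.inl (by
    show k2 < bv D (D.ball t y)
    omega))
  omega

omit [Finite P] [Finite Q] in
private theorem Rb_le {y y' : V} {t : ℕ} (h : Nr D.N t y y') : Rb D k2 y' ≤ Rb D k2 y + t := by
  have h1 : Rb D k2 y ∈ ({t | k2 < bv D (D.ball t y)} ∪ {cap D} : Set ℕ) :=
    Nat.sInf_mem ⟨cap D, Or.inr rfl⟩
  rcases h1 with h1 | h1
  · refine Nat.sInf_le (Or.inl ?_)
    show k2 < bv D (D.ball (Rb D k2 y + t) y')
    have h2 : k2 < bv D (D.ball (Rb D k2 y) y) := h1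
    refine h2.trans_le (Set.ncard_le_ncard ?_ (Set.toFinite _))
    refine Set.inter_subset_inter_left _ ?_
    intro v hv
    have hv' : Nr D.N (Rb D k2 y) y v := hv
    show Nr D.N (Rb D k2 y + t) y' v
    rw [Nat.add_comm]
    exact h.symm.trans hv'
  · have h2 : Rb D k2 y = cap D := h1
    have h3 : Rb D k2 y' ≤ cap D := Nat.sInf_le (Or.inr rfl)
    omega

omit [Finite V] [Finite P] [Finite Q] in
private theorem cw_reverse {u v : V} (W : D.G.Walk u v) : cw D W.reverse = cw D W := by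
  unfold cw
  rw [SimpleGraph.Walk.length_reverse, SimpleGraph.Walk.support_reverse, List.map_reverse,
    List.sum_reverse]

omit [Finite V] [Finite P] [Finite Q] in
open Classical in
private theorem cw_append_le {u v w : V} (W : D.G.Walk u v) (W' : D.G.Walk v w) :
    cw D (W.append W') ≤ cw D W + cw D W' := by
  unfold cw
  rw [SimpleGraph.Walk.length_append, SimpleGraph.Walk.support_append, List.map_append,
    List.sum_append]
  have h : (W'.support.map fun z => if z ∈ D.U then deg D.G z else 0).sum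
      = (if v ∈ D.U then deg D.G v else 0)
        + (W'.support.tail.map fun z => if z ∈ D.U then deg D.G z else 0).sum := by
    conv_lhs => rw [← SimpleGraph.Walk.cons_tail_support W']
    rw [List.map_cons, List.sum_cons]
  rw [h]
  omega

omit [Finite V] [Finite P] [Finite Q] in
open Classical in
private theorem cw_concat {u v w : V} (W : D.G.Walk u v) (h : D.G.Adj v w) :
    cw D (W.concat h) = cw D W + 1 + (if w ∈ D.U then deg D.G w else 0) := by
  unfold cw
  rw [SimpleGraph.Walk.length_concat, SimpleGraph.Walk.support_concat, List.map_append,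
    List.sum_append]
  simp only [List.map_cons, List.map_nil, List.sum_cons, List.sum_nil]
  omega

omit [Finite V] [Finite P] [Finite Q] in
open Classical in
private theorem cw_end {u v : V} (W : D.G.Walk u v) :
    (if v ∈ D.U then deg D.G v else 0) ≤ cw D W := by
  unfold cw
  have h1 : (if v ∈ D.U then deg D.G v else 0) ≤
      (W.support.map fun z => if z ∈ D.U then deg D.G z else 0).sum :=
    List.single_le_sum (fun _ _ => Nat.zero_le _) _
      (List.mem_map.2 ⟨v, W.end_mem_support, rfl⟩)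
  omega

omit [Finite V] [Finite P] [Finite Q] in
private theorem sg_ge (hD : D.Ok) (p : P) : 2 ≤ sg D k2 p :=
  (hD.r_pos.trans (hD.w_ge p)).trans (le_max_left _ _)

omit [Finite V] [Finite P] [Finite Q] in
/-- the nearest other hub of a `T5` pin -/
theorem t5_e1 {p : P} (h : T5 D k k2 p) : e1 D p ≤ sg D k2 p ∧ lam D p ≤ 2 * sg D k2 p := by
  have h1 := h.1
  have h2 : rho D k2 p ≤ Rb D k2 (D.x p) := min_le_right _ _
  have h3 : (D.w p).length ≤ sg D k2 p := le_max_left _ _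
  have h4 : min (e1 D p) (Rb D k2 (D.x p)) ≤ sg D k2 p := le_max_right _ _
  unfold lam
  rcases min_le_iff.1 h4 with h5 | h5
  · omega
  · omega

omit [Finite V] [Finite P] [Finite Q] in
private theorem t5_cap0 {p : P} (h : T5 D k k2 p) : e1 D p < cap D := by
  have h1 := h.1
  have h2 : rho D k2 p ≤ e2 D p := min_le_left _ _
  have h3 := e2_cap (D := D) p
  have h4 := (t5_e1 h).1
  omega

omit [Finite V] [Finite P] [Finite Q] in
private theorem t5_bv {p : P} (h : T5 D k k2 p) :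
    bv D (D.ball (rho D k2 p - 1) (D.x p)) ≤ k2 := by
  have h1 := h.1
  have h2 : rho D k2 p ≤ Rb D k2 (D.x p) := min_le_right _ _
  exact Rb_lt (by omega)

omit [Finite V] [Finite P] [Finite Q] in
private theorem t5_two {p : P} (h : T5 D k k2 p) :
    ∀ q, Pn D (rho D k2 p - 1) (D.x p) q → D.hub q = D.hub p ∨ D.hub q = D.hub (pt1 D p) := by
  intro q hq
  by_contra hcon
  rw [not_or] at hcon
  have h1 := h.1
  have h2 : rho D k2 p ≤ e2 D p := min_le_left _ _
  have h3 := e2_le hcon.1 hcon.2 hq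
  omega

omit [Finite V] [Finite P] [Finite Q] in
private theorem lam_le {p q : P} {t : ℕ} (h : D.hub q ≠ D.hub p) (h' : Nr D.N t (D.x p) (D.x q)) :
    lam D p ≤ (D.w p).length + t + (D.w q).length := by
  have h1 : e1 D p ≤ t + (D.w q).length := e1_le h ⟨t, h', le_rfl⟩
  unfold lam
  omega

omit [Finite P] [Finite Q] in
private theorem deg_le_card (v : V) : deg D.G v ≤ Nat.card V := by
  unfold deg
  exact (Set.ncard_le_card _)

omit [Finite P] [Finite Q] in
theorem t5_cap (hD : D.Ok) (hB : Bad D k k2) (hk : k2 ≤ k) (hk1 : 8 ≤ k) {p : P}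
    (h : T5 D k k2 p) : rho D k2 p < cap D ∧ D.hub (pt1 D p) ≠ D.hub p ∧
      Pn D (e1 D p) (D.x p) (pt1 D p) ∧ k * rho D k2 p < 2 * deg D.G (D.hub (pt1 D p)) := by
  classical
  have hs := h.1
  have hs2 := sg_ge (k2 := k2) hD p
  obtain ⟨h1, h2⟩ := t5_e1 h
  obtain ⟨h3, h4⟩ := e1_spec (t5_cap0 h)
  obtain ⟨y, z, W, hy, hz, hW, hc⟩ := h.2
  have hl : k * lam D p ≤ k * (rho D k2 p - 1) := Nat.mul_le_mul le_rfl (by omega)
  have key := hB.p3 p (D.hub (pt1 D p)) (rho D k2 p - 1) (by omega) (hD.hub_U _) h3 (t5_bv h)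
    (t5_two h) y z W hy hz hW (hc.trans hl) (fun q t hq hn => hc.trans
      (Nat.mul_le_mul le_rfl (lam_le (by rw [hq]; exact h3) hn))) z W.end_mem_support
  have h5 : pt1 D p ≠ p := fun h6 => h3 (by rw [h6])
  obtain ⟨s, hs1, hs3⟩ := h4
  obtain ⟨W1, hW1, hc1⟩ := Rch.trans (Rch.of_nr hD p (hD.x_U p) hs1) (Rch.pin hD h5)
  have h6 : Rch D (Fp D p) (cw D W1 + 1 + k * lam D p) (D.x p) z := by
    refine ⟨W1.concat hz.1, fun f hf => ?_, ?_⟩
    · rw [SimpleGraph.Walk.edges_concat, List.concat_eq_append, List.mem_append,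
        List.mem_singleton] at hf
      rcases hf with hf | rfl
      · exact hW1 f hf
      · exact hz.2
    · rw [cw_concat]
      have := cw_end W
      omega
  have h7 : k * (rho D k2 p - 1) < cw D W1 + 1 + k * lam D p := by
    by_contra hcon
    exact key (Rch.mono h6 Subset.rfl (by omega))
  have h8 : k * lam D p ≤ k * (2 * sg D k2 p) := Nat.mul_le_mul le_rfl h2
  have h9 : k * (128 * sg D k2 p) ≤ k * (rho D k2 p - 1) := Nat.mul_le_mul le_rfl (by omega)
  have h10 : k * (rho D k2 p - 1) + k = k * rho D k2 p := by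
    rw [← Nat.mul_succ]
    congr 1
    omega
  have h11 : k * 2 ≤ k * sg D k2 p := Nat.mul_le_mul le_rfl hs2
  have h12 : 8 * sg D k2 p ≤ k * sg D k2 p := Nat.mul_le_mul hk1 le_rfl
  have h13 : k * (2 * sg D k2 p) = 2 * (k * sg D k2 p) := by ring
  have h14 : k * (128 * sg D k2 p) = 128 * (k * sg D k2 p) := by ring
  have h15 : k * rho D k2 p < 2 * deg D.G (D.hub (pt1 D p)) := by omega
  have h16 := deg_le_card (D := D) (D.hub (pt1 D p))
  have h17 : 8 * rho D k2 p ≤ k * rho D k2 p := Nat.mul_le_mul hk1 le_rfl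
  refine ⟨?_, h3, ⟨s, hs1, hs3⟩, h15⟩
  unfold cap
  omega

omit [Finite P] [Finite Q] in
/-- near `x p` there is no other unit with the same hubs which is not longer -/
theorem t5_pair (hD : D.Ok) (hB : Bad D k k2) (hk : k2 ≤ k) (hk1 : 8 ≤ k) {p p' : P}
    (h : T5 D k k2 p) (hne : p ≠ p') (hnp : p ≠ pt1 D p') (he : e1 D p' < cap D)
    (hl : lam D p' ≤ lam D p)
    (hpair : s(D.hub p, D.hub (pt1 D p)) = s(D.hub p', D.hub (pt1 D p'))) :
    ¬ Rch D (Fp D p) (k * (rho D k2 p - 1)) (D.x p) (D.x p') := by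
  have hs := h.1
  have hs2 := sg_ge (k2 := k2) hD p
  obtain ⟨h1, h2⟩ := t5_e1 h
  obtain ⟨h3, h4⟩ := e1_spec (t5_cap0 h)
  obtain ⟨h5, s, h6, h7⟩ := e1_spec he
  obtain ⟨y1, hy1, W1, hW1, hc1⟩ := Byp.pin hD hne.symm
  obtain ⟨z1, hz1, W2, hW2, hc2⟩ :=
    Byp.trans (Rch.of_nr hD p (hD.x_U p') h6) (Byp.pin hD (fun h => hnp h.symm))
  have hc : cw D (W1.reverse.append W2) ≤ lam D p' := by
    have := cw_append_le W1.reverse W2
    rw [cw_reverse] at this
    unfold lam
    omega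
  have hW : ∀ f ∈ (W1.reverse.append W2).edges, f ∉ Fp D p := by
    intro f hf
    rw [SimpleGraph.Walk.edges_append, List.mem_append, SimpleGraph.Walk.edges_reverse,
      List.mem_reverse] at hf
    rcases hf with hf | hf
    · exact hW1 f hf
    · exact hW2 f hf
  have hm : D.x p' ∈ (W1.reverse.append W2).support := by
    rw [SimpleGraph.Walk.mem_support_append_iff]
    exact Or.inl (SimpleGraph.Walk.end_mem_support _)
  have hk2 : ∀ t, t ≤ k * t := fun t => Nat.le_mul_of_pos_left _ (by omega)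
  have hk3 := hk2 (rho D k2 p - 1)
  rcases Sym2.eq_iff.1 hpair with ⟨ha, hb⟩ | ⟨ha, hb⟩
  · refine hB.p3 p (D.hub (pt1 D p)) (rho D k2 p - 1) (by omega) (hD.hub_U _) h3 (t5_bv h)
      (t5_two h) y1 z1 (W1.reverse.append W2) (by rw [ha]; exact hy1) (by rw [hb]; exact hz1) hW
      (by omega) (fun q t hq hn => ?_) (D.x p') hm
    have h8 := lam_le (p := p) (by rw [hq]; exact h3) hn
    exact (hc.trans (hl.trans h8)).trans (hk2 _)
  · refine hB.p3 p (D.hub (pt1 D p)) (rho D k2 p - 1) (by omega) (hD.hub_U _) h3 (t5_bv h)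
      (t5_two h) z1 y1 (W1.reverse.append W2).reverse (by rw [ha]; exact hz1)
      (by rw [hb]; exact hy1) ?_ (by rw [cw_reverse]; omega) (fun q t hq hn => ?_) (D.x p') ?_
    · intro f hf
      rw [SimpleGraph.Walk.edges_reverse, List.mem_reverse] at hf
      exact hW f hf
    · have h8 := lam_le (p := p) (by rw [hq]; exact h3) hn
      rw [cw_reverse]
      exact (hc.trans (hl.trans h8)).trans (hk2 _)
    · rw [SimpleGraph.Walk.support_reverse, List.mem_reverse]
      exact hm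

omit [Finite P] [Finite Q] in
/-- two pins with the same nearest hub pin, the same hub -/
private theorem t5_inj1 (hD : D.Ok) (hB : Bad D k k2) (hk : k2 ≤ k) (hk1 : 100 ≤ k) {p p' : P}
    (h : T5 D k k2 p) (h' : T5 D k k2 p') (hq : pt1 D p = pt1 D p') (hh : D.hub p = D.hub p')
    (hl : lam D p' ≤ lam D p) : p = p' := by
  by_contra hne
  have hs := h.1
  obtain ⟨h1, h2⟩ := t5_e1 h
  obtain ⟨h3, s, h6, h7⟩ := e1_spec (t5_cap0 h)
  obtain ⟨h3', s', h6', h7'⟩ := e1_spec (t5_cap0 h')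
  refine t5_pair hD hB hk (by omega) h hne (fun h8 => ?_) (t5_cap0 h') hl (by rw [hh, hq]) ?_
  · apply h3
    rw [hq, ← h8]
  · rw [← hq] at h6'
    have h9 : Nr D.N (s + s') (D.x p) (D.x p') := h6.trans h6'.symm
    refine Rch.mono (Rch.of_nr hD p (hD.x_U p) h9) Subset.rfl ?_
    have h10 : rho D k2 p - 1 ≤ k * (rho D k2 p - 1) := Nat.le_mul_of_pos_left _ (by omega)
    unfold lam at hl h2
    omega

omit [Finite P] [Finite Q] in
theorem t5_inj (hD : D.Ok) (hB : Bad D k k2) (hk : k2 ≤ k) (hk1 : 100 ≤ k) {p p' : P}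
    (h : T5 D k k2 p) (h' : T5 D k k2 p')
    (hj : Nat.log 2 (rho D k2 p) = Nat.log 2 (rho D k2 p')) (hq : pt1 D p = pt1 D p') : p = p' := by
  by_cases hh : D.hub p = D.hub p'
  · rcases le_total (lam D p') (lam D p) with hl | hl
    · exact t5_inj1 hD hB hk hk1 h h' hq hh hl
    · exact (t5_inj1 hD hB hk hk1 h' h hq.symm hh.symm hl).symm
  · exfalso
    have hs := h.1
    have hs' := h'.1
    obtain ⟨h1, h2⟩ := t5_e1 h
    obtain ⟨h1', h2'⟩ := t5_e1 h'
    obtain ⟨h3, s, h6, h7⟩ := e1_spec (t5_cap0 h)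
    obtain ⟨h3', s', h6', h7'⟩ := e1_spec (t5_cap0 h')
    rw [← hq] at h6' h3'
    have h4 : e2 D p ≤ s + s' + (D.w p').length :=
      e2_le (fun h8 => hh h8.symm) (fun h8 => h3' h8.symm) ⟨s + s', h6.trans h6'.symm, le_rfl⟩
    have h5 : e2 D p' ≤ s' + s + (D.w p).length :=
      e2_le hh (fun h8 => h3 (by rw [hq]; exact h8.symm)) ⟨s' + s, h6'.trans h6.symm, le_rfl⟩
    have h8 : rho D k2 p ≤ e2 D p := min_le_left _ _
    have h8' : rho D k2 p' ≤ e2 D p' := min_le_left _ _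
    unfold lam at h2 h2'
    rw [← hq] at h7'
    omega

omit [Finite P] [Finite Q] in
theorem t5_A (hD : D.Ok) (hB : Bad D k k2) (hk : k2 ≤ k) (hk1 : 100 * (k1 + 1) ≤ k) {p : P}
    (h : T5 D k k2 p) (hn : ¬ Lg2 D k1 k2 p) :
    Lg D k1 k2 (pt1 D p) ∧ (¬ T5 D k k2 (pt1 D p) ∨ Lg2 D k1 k2 (pt1 D p)) := by
  have hs := h.1
  have hs2 := sg_ge (k2 := k2) hD p
  obtain ⟨h1, h2⟩ := t5_e1 h
  obtain ⟨hc, h3, ⟨s, h6, h7⟩, h8⟩ := t5_cap hD hB hk (by omega) h
  have h9 : e1 D (pt1 D p) ≤ s + (D.w p).length :=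
    e1_le (fun h => h3 h.symm) ⟨s, h6.symm, le_rfl⟩
  have h10 : sg D k2 (pt1 D p) ≤ lam D p := by
    unfold sg lam
    have : min (e1 D (pt1 D p)) (Rb D k2 (D.x (pt1 D p))) ≤ e1 D (pt1 D p) := min_le_left _ _
    exact max_le (by omega) (by omega)
  have h11 : k1 * sg D k2 (pt1 D p) ≤ k1 * rho D k2 p := Nat.mul_le_mul le_rfl (by omega)
  have h12 : 100 * (k1 + 1) * rho D k2 p ≤ k * rho D k2 p := Nat.mul_le_mul hk1 le_rfl
  have h13 : 100 * (k1 + 1) * rho D k2 p = 100 * (k1 * rho D k2 p) + 100 * rho D k2 p := by ring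
  refine ⟨?_, ?_⟩
  · unfold Lg
    omega
  · by_contra hcon
    rw [not_or, not_not] at hcon
    obtain ⟨hq, hq2⟩ := hcon
    obtain ⟨-, g3, -, -⟩ := t5_cap hD hB hk (by omega) hq
    have g1 : rho D k2 (pt1 D p) ≤ 2 * rho D k2 p := by
      have g4 : rho D k2 (pt1 D p) ≤ e2 D (pt1 D p) := min_le_left _ _
      have g5 : rho D k2 (pt1 D p) ≤ Rb D k2 (D.x (pt1 D p)) := min_le_right _ _
      rcases min_choice (e2 D p) (Rb D k2 (D.x p)) with g6 | g6
      · have g7 : rho D k2 p = e2 D p := g6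
        have g0 : e2 D p < cap D := by omega
        obtain ⟨r, r1, r2, s', r3, r4⟩ := e2_spec g0
        unfold lam at h2
        by_cases g8 : D.hub p = D.hub (pt1 D (pt1 D p))
        · have g9 : e2 D (pt1 D p) ≤ s + s' + (D.w r).length :=
            e2_le r2 (fun g10 => r1 (by rw [g8]; exact g10)) ⟨s + s', h6.symm.trans r3, le_rfl⟩
          omega
        · have g9 : e2 D (pt1 D p) ≤ s + (D.w p).length :=
            e2_le (fun g10 => h3 g10.symm) g8 ⟨s, h6.symm, le_rfl⟩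
          omega
      · have g7 : rho D k2 p = Rb D k2 (D.x p) := g6
        have g8 := Rb_le (k2 := k2) h6
        omega
    have g2 : k1 * rho D k2 (pt1 D p) ≤ k1 * (2 * rho D k2 p) := Nat.mul_le_mul le_rfl g1
    have g3' : k1 * (2 * rho D k2 p) = 2 * (k1 * rho D k2 p) := by ring
    unfold Lg2 at hq2
    omega

end

end Pool.Agent.Helper17.PL
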